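import Mathlib

set_option autoImplicit false
set_option maxSynthPendingDepth 3

namespace Pool.Agent.Results.MP_96963f_co.Super
open Finset

/-- f is weighted threshold -/
def Weighted {n : ℕ} (f : (Fin n → Bool) → Bool) : Prop :=
  ∃ (w : Fin n → ℝ) (q : ℝ), ∀ x, f x = true ↔ q ≤ ∑ i, w i * (if x i = true then 1 else 0)

/-- f is k-summable: j true and j false vectors with the same sum, for some 1 ≤ j ≤ k -/
def KSummable {n : ℕ} (k : ℕ) (f : (Fin n → Bool) → Bool) : Prop :=
  ∃ j : ℕ, 1 ≤ j ∧ j ≤ k ∧ ∃ x y : Fin j → Fin n → Bool,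
    (∀ t, f (x t) = true) ∧ (∀ t, f (y t) = false) ∧
    ∀ i, (∑ t, if x t i = true then (1 : ℤ) else 0) = ∑ t, if y t i = true then (1 : ℤ) else 0

noncomputable def ind (b : Bool) : ℝ := if b = true then 1 else 0

lemma ind_mono {a b : Bool} (h : a ≤ b) : ind a ≤ ind b := by
  cases a <;> cases b <;> first | exact absurd h (by decide) | simp [ind]

lemma ind_inj {a b : Bool} (h : ind a = ind b) : a = b := by
  cases a <;> cases b <;> simp_all [ind]

lemma both_zero {j : ℕ} (a b : Fin j → ℝ) (ha : ∀ t, 0 ≤ a t) (hb : ∀ t, b t ≤ 0)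
    (h : ∑ t, a t = ∑ t, b t) : (∀ t, a t = 0) ∧ ∀ t, b t = 0 := by
  have h1 : 0 ≤ ∑ t, a t := sum_nonneg fun t _ => ha t
  have h2 : ∑ t, b t ≤ 0 := sum_nonpos fun t _ => hb t
  exact ⟨fun t => (sum_eq_zero_iff_of_nonneg fun t _ => ha t).mp (by linarith) t (mem_univ _),
    fun t => (sum_eq_zero_iff_of_nonpos fun t _ => hb t).mp (by linarith) t (mem_univ _)⟩

lemma frame {n : ℕ} {I : Type} [Fintype I] (vec : I → Fin n → Bool) (sg : I → Bool) (K : ℕ)
    (r : ℝ) (H1 : ∀ v, ∑ c, ind (vec v c) = r)
    (H2 : ∀ (x : Fin n → Bool) (l : I → ℝ), ∑ v, l v = 1 →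
      (∀ c, ind (x c) = ∑ v, l v * ind (vec v c)) → ∃ v, x = vec v)
    (H3 : Function.Injective vec)
    (d : I → ℝ) (d1 : ∀ v, sg v = true → 0 ≤ d v) (d2 : ∀ v, sg v = false → d v ≤ 0)
    (d0 : ∃ v, sg v = false ∧ d v < 0)
    (d3 : ∑ v, d v = 0) (d4 : ∀ c, ∑ v, d v * ind (vec v c) = 0)
    (H5 : ∀ j, 1 ≤ j → ∀ X Y : Fin j → I, (∀ t, sg (X t) = true) → (∀ t, sg (Y t) = false) →
      (∀ c, ∑ t, ind (vec (X t) c) = ∑ t, ind (vec (Y t) c)) → K < j) :
    ∃ f : (Fin n → Bool) → Bool, Monotone f ∧ ¬ Weighted f ∧ ¬ KSummable K f := by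
  classical
  let hom : (Fin n → Bool) → ℝ × (Fin n → ℝ) := fun x => (1, fun c => ind (x c))
  let W : Submodule ℝ (ℝ × (Fin n → ℝ)) := Submodule.span ℝ (Set.range fun v => hom (vec v))
  obtain ⟨φ0, hφ0⟩ := Module.exists_dual_forall_apply_ne_zero (K := ℝ)
    (fun x : {x : Fin n → Bool // hom x ∉ W} => W.mkQ (hom x.1))
    (fun x => by simpa using x.2)
  let φ : (ℝ × (Fin n → ℝ)) →ₗ[ℝ] ℝ := φ0.comp W.mkQ
  have φv : ∀ v, φ (hom (vec v)) = 0 := by
    intro v
    have : W.mkQ (hom (vec v)) = 0 := by
      simpa using (Submodule.subset_span ⟨v, rfl⟩ : hom (vec v) ∈ W)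
    simp only [φ, LinearMap.comp_apply, this, map_zero]
  have φx : ∀ x, φ (hom x) = 0 → ∃ v, x = vec v := by
    intro x hx
    have hW : hom x ∈ W := by
      by_contra h
      exact hφ0 ⟨x, h⟩ hx
    obtain ⟨l, hl⟩ := (Submodule.mem_span_range_iff_exists_fun ℝ).mp hW
    refine H2 x l ?_ fun c => ?_
    · simpa [hom, Prod.fst_sum] using congrArg Prod.fst hl
    · have := congrFun (congrArg Prod.snd hl) c
      simpa [hom, Prod.snd_sum] using this.symm
  let ψ : (Fin n → Bool) → ℝ := fun x => ∑ c, ind (x c) - r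
  let P : (Fin n → Bool) → Prop := fun x => 0 < ψ x ∨ (ψ x = 0 ∧ (0 < φ (hom x) ∨
    (φ (hom x) = 0 ∧ ∃ v, sg v = true ∧ x = vec v)))
  have Pv : ∀ v, P (vec v) ↔ sg v = true := by
    intro v
    have : ψ (vec v) = 0 := by simp [ψ, H1]
    simp only [P, this, φv, lt_irrefl, false_or, true_and]
    exact ⟨fun ⟨v', h, e⟩ => H3 e ▸ h, fun h => ⟨v, h, rfl⟩⟩
  refine ⟨fun x => decide (P x), ?_, ?_, ?_⟩
  · intro x y hxy
    rw [Bool.le_iff_imp]
    simp only [decide_eq_true_eq]
    intro hx
    by_cases e : x = y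
    · exact e ▸ hx
    · obtain ⟨c, hc⟩ := Function.ne_iff.mp e
      have : ∑ c, ind (x c) < ∑ c, ind (y c) :=
        sum_lt_sum (fun c _ => ind_mono (hxy c))
          ⟨c, mem_univ _, lt_of_le_of_ne (ind_mono (hxy c)) fun h => hc (ind_inj h)⟩
      left
      rcases hx with h | h
      · simp only [ψ] at h ⊢; linarith
      · have := h.1
        simp only [ψ] at this ⊢; linarith
  · rintro ⟨w, q, h⟩
    simp only [decide_eq_true_eq] at h
    have e : ∑ v, d v * (∑ c, w c * ind (vec v c) - q) = 0 := by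
      simp only [mul_sub, sum_sub_distrib, mul_sum, ← sum_mul, d3]
      rw [sum_comm]
      have : ∀ c, ∑ v, d v * (w c * ind (vec v c)) = 0 := by
        intro c
        have := congrArg (w c * ·) (d4 c)
        simp only [mul_sum, mul_zero] at this
        rw [← this]
        exact sum_congr rfl fun v _ => by ring
      simp [this]
    have hneg : ∀ v, sg v = false → (∑ c, w c * ind (vec v c) - q) < 0 := by
      intro v hv
      have h1 : ¬ q ≤ ∑ c, w c * ind (vec v c) := by
        intro h2
        have := (Pv v).mp ((h (vec v)).mpr h2)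
        simp [hv] at this
      linarith
    obtain ⟨v0, hv0, hv1⟩ := d0
    refine absurd e (ne_of_gt (sum_pos' (fun v _ => ?_)
      ⟨v0, mem_univ _, mul_pos_of_neg_of_neg hv1 (hneg v0 hv0)⟩))
    cases hv : sg v
    · exact mul_nonneg_of_nonpos_of_nonpos (d2 v hv) (hneg v hv).le
    · have h1 : q ≤ ∑ c, w c * ind (vec v c) := (h (vec v)).mp ((Pv v).mpr hv)
      exact mul_nonneg (d1 v hv) (by linarith)
  · rintro ⟨j, j1, jk, x, y, hx, hy, hs⟩
    simp only [decide_eq_true_eq, decide_eq_false_iff_not] at hx hy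
    have hs' : ∀ c, ∑ t, ind (x t c) = ∑ t, ind (y t c) := by
      intro c
      have := congrArg (Int.cast : ℤ → ℝ) (hs c)
      simpa [ind] using this
    have s1 : ∑ t, ψ (x t) = ∑ t, ψ (y t) := by
      simp only [ψ, sum_sub_distrib]
      rw [sum_comm, sum_comm (f := fun t c => ind (y t c))]
      simp only [hs']
    have s2 : ∑ t, φ (hom (x t)) = ∑ t, φ (hom (y t)) := by
      rw [← map_sum, ← map_sum]
      congr 1
      refine Prod.ext (by simp [hom, Prod.fst_sum]) (funext fun c => ?_)
      simpa [hom, Prod.snd_sum] using hs' c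
    obtain ⟨a1, b1⟩ := both_zero _ _ (fun t => by
        rcases hx t with h | h
        · exact h.le
        · exact h.1.ge)
      (fun t => not_lt.mp fun h => hy t (Or.inl h)) s1
    obtain ⟨a2, b2⟩ := both_zero _ _ (fun t => by
        rcases hx t with h | ⟨_, h | h⟩
        · exact absurd (a1 t) h.ne'
        · exact h.le
        · exact h.1.ge)
      (fun t => not_lt.mp fun h => hy t (Or.inr ⟨b1 t, Or.inl h⟩)) s2
    choose X hX using fun t => φx _ (a2 t)
    choose Y hY using fun t => φx _ (b2 t)
    have := H5 j j1 X Y (fun t => (Pv _).mp (hX t ▸ hx t))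
      (fun t => by
        have := hy t
        rw [hY t, Pv] at this
        simpa using this)
      (fun c => by simpa only [← hX, ← hY] using hs' c)
    omega

/-! the gadget for an arbitrary matrix with entries 0, 1, -1 -/

section gadget
variable {R K : Type} [Fintype R] [Fintype K] [DecidableEq K]

abbrev II (K : Type) := K × Bool × Bool
abbrev CC (R K : Type) := (K × Bool × Bool) ⊕ (R × Bool × Bool)

def mem (A : R → K → ℤ) : CC R K → II K → Bool
  | Sum.inl (i, a, b), (k, s, a') => decide (k = i ∧ a' = (if s = true then a else b))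
  | Sum.inr (i, a, s), (k, s', a') =>
    decide (a' = a ∧ (if s' = s then A i k = 1 else A i k = -1))

noncomputable def M (A : R → K → ℤ) (c : CC R K) (l : II K → ℝ) : ℝ :=
  ∑ v, l v * ind (mem A c v)

omit [Fintype R] in
lemma M_pair (A : R → K → ℤ) (i : K) (a b : Bool) (l : II K → ℝ) :
    M A (Sum.inl (i, a, b)) l = l (i, true, a) + l (i, false, b) := by
  simp only [M, Fintype.sum_prod_type, Fintype.sum_bool, mem, ind]
  rw [sum_eq_single i]
  · cases a <;> cases b <;> simp
  · intro k _ hk; simp [hk]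
  · simp

omit [Fintype R] in
lemma M_link (A : R → K → ℤ) (i : R) (a s : Bool) (l : II K → ℝ) :
    M A (Sum.inr (i, a, s)) l = ∑ k, ((if A i k = 1 then l (k, s, a) else 0) +
      if A i k = -1 then l (k, !s, a) else 0) := by
  simp only [M, Fintype.sum_prod_type, Fintype.sum_bool, mem, ind]
  cases a <;> cases s <;> simp [add_comm]

omit [Fintype R] in
lemma M_sub (A : R → K → ℤ) (c : CC R K) (l m : II K → ℝ) :
    M A c (l - m) = M A c l - M A c m := by
  simp [M, sub_mul, sum_sub_distrib]

omit [Fintype R] in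
lemma M_single (A : R → K → ℤ) (c : CC R K) (v : II K) :
    M A c (Pi.single v 1) = ind (mem A c v) := by
  rw [M, sum_eq_single v]
  · simp
  · intro u _ hu; simp [hu]
  · simp

omit [Fintype R] in
/-- if all pair sums vanish then the links are plus or minus one number -/
lemma links (A : R → K → ℤ) (hA : ∀ i k, A i k = 0 ∨ A i k = 1 ∨ A i k = -1)
    (m : II K → ℝ) (hp : ∀ i a b, m (i, true, a) + m (i, false, b) = 0)
    (i : R) (a s : Bool) : M A (Sum.inr (i, a, s)) m =
      (if s = true then 1 else -1) * ∑ k, (A i k : ℝ) * m (k, true, true) := by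
  have h1 : ∀ k a, m (k, false, a) = -m (k, true, true) := fun k a => by
    linarith [hp k true a]
  have h2 : ∀ k a, m (k, true, a) = m (k, true, true) := fun k a => by
    linarith [hp k a true, h1 k true]
  rw [M_link, mul_sum]
  refine sum_congr rfl fun k _ => ?_
  cases s <;> rcases hA i k with h | h | h <;> simp [h, h1, h2 _ a]

lemma ind01 (b : Bool) : ind b = 0 ∨ ind b = 1 := by cases b <;> simp [ind]

omit [Fintype R] in
lemma rigid (A : R → K → ℤ) (hA : ∀ i k, A i k = 0 ∨ A i k = 1 ∨ A i k = -1) (l : II K → ℝ) (hl : ∑ v, l v = 1)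
    (h01 : ∀ c, M A c l = 0 ∨ M A c l = 1) : ∃ v, ∀ c, M A c l = ind (mem A c v) := by
  have hp : ∀ i a b, l (i, true, a) + l (i, false, b) = 0 ∨
      l (i, true, a) + l (i, false, b) = 1 := fun i a b => M_pair A i a b l ▸ h01 _
  let L : K → ℝ := fun i =>
    l (i, true, true) + l (i, true, false) + (l (i, false, true) + l (i, false, false))
  have hL : ∑ i, L i = 1 := by
    rw [← hl]
    simp only [Fintype.sum_prod_type, Fintype.sum_bool, L]
  have L0 : ∀ i, 0 ≤ L i := fun i => by
    rcases hp i true true with h | h <;> rcases hp i false false with h' | h' <;>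
      simp only [L] <;> linarith
  obtain ⟨i0, hi0⟩ : ∃ i, L i ≠ 0 := by
    by_contra h
    push Not at h
    simp [h] at hL
  have hsplit := add_sum_erase univ L (mem_univ i0)
  have hrest : 0 ≤ ∑ i ∈ univ.erase i0, L i := sum_nonneg fun i _ => L0 i
  have L1 : L i0 = 1 := by
    rcases hp i0 true true with h | h <;> rcases hp i0 false false with h' | h' <;>
      simp only [L] at * <;> first | linarith | (exfalso; apply hi0; linarith)
  have Lz : ∀ i, i ≠ i0 → L i = 0 := fun i hi =>
    (sum_eq_zero_iff_of_nonneg fun i _ => L0 i).mp (by linarith)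
      i (mem_erase.mpr ⟨hi, mem_univ _⟩)
  obtain ⟨s0, a0, hv⟩ : ∃ s0 a0 : Bool, ∀ a b, l (i0, true, a) + l (i0, false, b) =
      ind (mem A (Sum.inl (i0, a, b)) (i0, s0, a0)) := by
    simp only [L] at L1
    rcases hp i0 true true with h | h <;> rcases hp i0 true false with h' | h'
    · refine ⟨true, false, fun a b => ?_⟩
      cases a <;> cases b <;> simp [mem, ind] <;> linarith
    · refine ⟨false, false, fun a b => ?_⟩
      cases a <;> cases b <;> simp [mem, ind] <;> linarith
    · refine ⟨false, true, fun a b => ?_⟩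
      cases a <;> cases b <;> simp [mem, ind] <;> linarith
    · refine ⟨true, true, fun a b => ?_⟩
      cases a <;> cases b <;> simp [mem, ind] <;> linarith
  have pairs : ∀ i a b, M A (Sum.inl (i, a, b)) l = ind (mem A (Sum.inl (i, a, b)) (i0, s0, a0)) := by
    intro i a b
    rw [M_pair]
    by_cases hi : i = i0
    · rw [hi]; exact hv a b
    · have := Lz i hi
      have e : ind (mem A (Sum.inl (i, a, b)) (i0, s0, a0)) = 0 := by
        simp [mem, ind, Ne.symm hi]
      rw [e]
      simp only [L] at this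
      rcases hp i a b with h | h
      · exact h
      · rcases hp i (!a) (!b) with h' | h' <;> cases a <;> cases b <;>
          simp only [Bool.not_true, Bool.not_false] at h' <;> linarith
  refine ⟨(i0, s0, a0), ?_⟩
  let m : II K → ℝ := l - Pi.single (i0, s0, a0) 1
  have hm : ∀ c, M A c m = M A c l - ind (mem A c (i0, s0, a0)) := fun c => by
    rw [M_sub, M_single]
  have mp : ∀ i a b, m (i, true, a) + m (i, false, b) = 0 := fun i a b => by
    rw [← M_pair, hm, pairs, sub_self]
  rintro (⟨i, a, b⟩ | ⟨i, a, s⟩)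
  · exact pairs i a b
  · have e : ∀ s, ind (mem A (Sum.inr (i, !a0, s)) (i0, s0, a0)) = 0 := by
      intro s; simp [mem, ind]
    have k1 := links A hA m mp i (!a0) true
    have k2 := links A hA m mp i (!a0) false
    have k3 := links A hA m mp i a s
    rw [hm, e] at k1 k2
    rw [hm] at k3
    have z : ∑ k, (A i k : ℝ) * m (k, true, true) = 0 := by
      simp only [if_true, Bool.false_eq_true, if_false] at k1 k2
      rcases h01 (Sum.inr (i, !a0, true)) with h | h <;>
        rcases h01 (Sum.inr (i, !a0, false)) with h' | h' <;> linarith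
    rw [z] at k3
    linarith

def vec0 (A : R → K → ℤ) {E : Type} (v : II K) : (CC R K × Bool) ⊕ E → Bool
  | Sum.inl c => if c.2 = true then mem A c.1 v else !mem A c.1 v
  | Sum.inr _ => false

lemma ind_not (b : Bool) : ind (!b) = 1 - ind b := by cases b <;> simp [ind]

lemma gadget (A : R → K → ℤ) (hA : ∀ i k, A i k = 0 ∨ A i k = 1 ∨ A i k = -1)
    (hc : Fintype.card R < Fintype.card K) (B : ℕ)
    (hB : ∀ τ : K → ℤ, τ ≠ 0 → (∀ i, ∑ k, A i k * τ k = 0) → (B : ℤ) ≤ ∑ k, |τ k|)
    (n : ℕ) (hn : 8 * Fintype.card R + 8 * Fintype.card K ≤ n) :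
    ∃ f : (Fin n → Bool) → Bool, Monotone f ∧ ¬ Weighted f ∧ ¬ KSummable B f := by
  classical
  obtain ⟨E, rfl⟩ := Nat.exists_eq_add_of_le hn
  let e : Fin (8 * Fintype.card R + 8 * Fintype.card K + E) ≃ (CC R K × Bool) ⊕ Fin E :=
    Fintype.equivOfCardEq (by simp; ring)
  obtain ⟨τ, hτ, hτ0⟩ : ∃ τ : K → ℝ, (∀ i, ∑ k, (A i k : ℝ) * τ k = 0) ∧ τ ≠ 0 := by
    have := LinearMap.ker_ne_bot_of_finrank_lt
      (f := Matrix.mulVecLin (Matrix.of fun i k => (A i k : ℝ))) (by simpa using hc)
    obtain ⟨τ, h1, h2⟩ := (Submodule.ne_bot_iff _).mp this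
    exact ⟨τ, fun i => congrFun h1 i, h2⟩
  let d : II K → ℝ := fun v => (if v.2.1 = true then 1 else -1) * τ v.1
  let sg : II K → Bool := fun v => decide (v.2.1 = true ↔ 0 ≤ τ v.1)
  have dsum : ∑ v, d v = 0 := by
    simp [d, Fintype.sum_prod_type]
  have dM : ∀ c, M A c d = 0 := by
    have hp : ∀ i a b, d (i, true, a) + d (i, false, b) = 0 := fun i a b => by simp [d]
    rintro (⟨i, a, b⟩ | ⟨i, a, s⟩)
    · rw [M_pair, hp]
    · rw [links A hA d hp]
      simp [d, hτ]
  refine frame (fun v c => vec0 A v (e c)) sg B (Fintype.card (CC R K))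
    (fun v => ?_) (fun x l hl hx => ?_) (fun u v huv => ?_) d (fun v hv => ?_) (fun v hv => ?_)
    ?_ dsum (fun c => ?_) (fun j j1 X Y hX hY hs => ?_)
  · rw [Equiv.sum_comp e (fun c => ind (vec0 A v c))]
    have : ind false = 0 := by simp [ind]
    simp [Fintype.sum_prod_type, vec0, ind_not, this]
  · obtain ⟨v, hv⟩ := rigid A hA l hl fun c => by
      have := hx (e.symm (Sum.inl (c, true)))
      simp only [Equiv.apply_symm_apply, vec0, if_true] at this
      rw [M, ← this]
      exact ind01 _
    refine ⟨v, funext fun c => ind_inj ?_⟩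
    rw [hx c]
    rcases e c with ⟨c', b⟩ | c'
    · cases b
      · simp only [vec0, Bool.false_eq_true, if_false, ind_not, mul_sub, sum_sub_distrib, mul_one,
          hl, ← hv, M]
      · simp only [vec0, if_true, ← hv, M]
    · simp [vec0, ind]
  · have h : ∀ c, mem A c u = mem A c v := fun c => by
      simpa [vec0] using congrFun huv (e.symm (Sum.inl (c, true)))
    obtain ⟨i, s, a⟩ := u
    obtain ⟨i', s', a'⟩ := v
    have h1 := h (Sum.inl (i, a, a))
    have h2 := h (Sum.inl (i, a, !a))
    cases s <;> cases s' <;> cases a <;> cases a' <;> simp_all [mem]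
  · obtain ⟨k, s, a⟩ := v
    cases s <;> simp [d, sg] at hv ⊢ <;> linarith
  · obtain ⟨k, s, a⟩ := v
    cases s <;> simp [d, sg] at hv ⊢ <;> linarith
  · obtain ⟨k, hk⟩ := Function.ne_iff.mp hτ0
    rcases lt_or_gt_of_ne hk with h | h
    · exact ⟨(k, true, true), by simpa [sg] using h, by simpa [d] using h⟩
    · exact ⟨(k, false, true), by simpa [sg] using h.le, by simpa [d] using h⟩
  · rcases e c with ⟨c', b⟩ | c'
    · cases b
      · have := dM c'
        simp only [vec0, Bool.false_eq_true, if_false, ind_not, mul_sub, sum_sub_distrib, mul_one,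
          dsum]
        rw [M] at this
        rw [this, sub_self]
      · simpa only [vec0, if_true, M] using dM c'
    · simp [vec0, ind]
  · let cnt : (Fin j → II K) → II K → ℤ := fun Z v => ∑ t, if v = Z t then 1 else 0
    have cast : ∀ Z, (fun v => (cnt Z v : ℝ)) = ∑ t, Pi.single (Z t) 1 := by
      intro Z
      funext v
      simp only [cnt, Finset.sum_apply, Pi.single_apply]
      push_cast
      rfl
    have Msum : ∀ (Z : Fin j → II K) (c : CC R K),
        M A c (∑ t, Pi.single (Z t) 1) = ∑ t, ind (mem A c (Z t)) := by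
      intro Z c
      simp only [← M_single]
      simp only [M, Finset.sum_apply, sum_mul]
      rw [sum_comm]
    let m : II K → ℝ := (fun v => (cnt X v : ℝ)) - fun v => (cnt Y v : ℝ)
    have hM : ∀ c, M A c m = 0 := fun c => by
      have := hs (e.symm (Sum.inl (c, true)))
      simp only [Equiv.apply_symm_apply, vec0, if_true] at this
      rw [M_sub, cast, cast, Msum, Msum, this, sub_self]
    have hp : ∀ i a b, m (i, true, a) + m (i, false, b) = 0 := fun i a b => by
      rw [← M_pair, hM]
    have hp' : ∀ i a b, cnt X (i, true, a) - cnt Y (i, true, a) +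
        (cnt X (i, false, b) - cnt Y (i, false, b)) = 0 := fun i a b => by
      have := hp i a b
      simp only [m, Pi.sub_apply] at this
      exact_mod_cast this
    have nn : ∀ Z v, 0 ≤ cnt Z v := fun Z v => sum_nonneg fun t _ => by split_ifs <;> simp
    have dis : ∀ v, cnt X v = 0 ∨ cnt Y v = 0 := by
      intro v
      cases hv : sg v
      · left
        refine sum_eq_zero fun t _ => if_neg fun h => ?_
        have := hX t
        rw [← h, hv] at this
        simp at this
      · right
        refine sum_eq_zero fun t _ => if_neg fun h => ?_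
        have := hY t
        rw [← h, hv] at this
        simp at this
    have tot : ∀ Z, ∑ v, cnt Z v = j := by
      intro Z
      simp only [cnt]
      rw [sum_comm]
      simp
    let σ : K → ℤ := fun k => cnt X (k, true, true) - cnt Y (k, true, true)
    have habs : ∀ v : II K, cnt X v + cnt Y v = |σ v.1| := by
      rintro ⟨k, s, a⟩
      have e1 : ∀ v, cnt X v + cnt Y v = |cnt X v - cnt Y v| := fun v => by
        rcases dis v with h | h
        · rw [h, zero_sub, abs_neg, abs_of_nonneg (nn _ _), zero_add]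
        · rw [h, sub_zero, abs_of_nonneg (nn _ _), add_zero]
      rw [e1]
      cases s
      · rw [← abs_neg]
        congr 1
        have := hp' k true a
        simp only [σ]
        linarith
      · congr 1
        have h1 := hp' k true true
        have h2 := hp' k a true
        simp only [σ]
        linarith
    have tot2 : (2 * j : ℤ) = 4 * ∑ k, |σ k| := by
      have : ∑ v, (cnt X v + cnt Y v) = 2 * j := by rw [sum_add_distrib, tot, tot]; ring
      rw [← this]
      simp only [habs, Fintype.sum_prod_type, Fintype.sum_bool, mul_sum]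
      exact sum_congr rfl fun k _ => by ring
    have σ0 : σ ≠ 0 := by
      intro h
      simp [h] at tot2
      omega
    have := hB σ σ0 fun i => by
      have := links A hA m hp i true true
      rw [hM] at this
      simp only [m, Pi.sub_apply, if_true, one_mul] at this
      simp only [σ]
      exact_mod_cast this.symm
    omega

end gadget

/-! the ill conditioned system -/

lemma growth {S : Type} [Fintype S] [DecidableEq S] (rk : Finset S → ℕ)
    (h1 : Function.Injective rk) (h2 : ∀ β α, β ⊂ α → rk β < rk α) (y : Finset S → ℤ)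
    (hy : ∀ α, α ≠ ∅ → ∑ β ∈ α.powerset, y β =
      2 ^ α.card * ∑ β ∈ univ.filter (fun β => rk β < rk α), y β) (h0 : 0 ≤ y ∅) :
    (∀ β, 0 ≤ y β) ∧ (∏ β : Finset S, 2 ^ β.card) * y ∅ ≤ ∑ β, y β := by
  have key : ∀ s : Finset (Finset S), (∀ α ∈ s, ∀ β, rk β < rk α → β ∈ s) →
      (∀ β ∈ s, 0 ≤ y β) ∧ (s ≠ ∅ → (∏ β ∈ s, 2 ^ β.card) * y ∅ ≤ ∑ β ∈ s, y β) := by
    intro s
    induction s using Finset.induction_on_max_value rk with
    | empty => simp
    | insert a s ha hmax ih =>
      intro hl
      have hlt : ∀ β ∈ s, rk β < rk a := fun β hβ =>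
        lt_of_le_of_ne (hmax β hβ) fun h => ha (h1 h ▸ hβ)
      have hs : univ.filter (fun β => rk β < rk a) = s := by
        ext β
        simp only [mem_filter, mem_univ, true_and]
        refine ⟨fun h => ?_, hlt β⟩
        rcases mem_insert.mp (hl a (mem_insert_self _ _) β h) with e | e
        · rw [e] at h; exact absurd h (lt_irrefl _)
        · exact e
      obtain ⟨i1, i2⟩ := ih fun α hα β hβ => by
        rw [← hs]
        simp only [mem_filter, mem_univ, true_and]
        exact hβ.trans (hlt α hα)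
      by_cases e : a = ∅
      · subst e
        have : s = ∅ := by
          refine eq_empty_of_forall_notMem fun β hβ => ?_
          by_cases e : β = ∅
          · exact ha (e ▸ hβ)
          · have := h2 ∅ β (empty_ssubset.mpr (nonempty_iff_ne_empty.mpr e))
            have := hlt β hβ
            omega
        subst this
        simpa using h0
      · have hne : s ≠ ∅ := by
          rw [← hs]
          exact ne_empty_of_mem (a := ∅) (by
            simpa using h2 ∅ a (empty_ssubset.mpr (nonempty_iff_ne_empty.mpr e)))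
        have q := hy a e
        rw [hs, ← add_sum_erase _ _ (mem_powerset_self a)] at q
        have q2 : ∑ β ∈ a.powerset.erase a, y β ≤ ∑ β ∈ s, y β := by
          refine sum_le_sum_of_subset_of_nonneg (fun β hβ => ?_) fun β hβ _ => i1 β hβ
          rw [← hs]
          simp only [mem_filter, mem_univ, true_and]
          rw [mem_erase, mem_powerset] at hβ
          exact h2 _ _ (Finset.ssubset_iff_subset_ne.mpr ⟨hβ.2, hβ.1⟩)
        have q3 : 0 ≤ ∑ β ∈ s, y β := sum_nonneg i1
        have q4 : (1 : ℤ) ≤ 2 ^ a.card := one_le_pow₀ (by norm_num)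
        refine ⟨fun β hβ => ?_, fun _ => ?_⟩
        · rcases mem_insert.mp hβ with h | h
          · rw [h]; nlinarith
          · exact i1 β h
        · rw [prod_insert ha, sum_insert ha, mul_assoc]
          have := mul_le_mul_of_nonneg_left (i2 hne) (by linarith : (0 : ℤ) ≤ 2 ^ a.card)
          linarith
  obtain ⟨k1, k2⟩ := key univ fun _ _ _ _ => mem_univ _
  exact ⟨fun β => k1 β (mem_univ _), k2 (ne_empty_of_mem (mem_univ ∅))⟩

def chi {S : Type} [DecidableEq S] (β p : Finset S) : ℤ := ∏ i ∈ β, if i ∈ p then -1 else 1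

lemma chi_val {S : Type} [DecidableEq S] (β p : Finset S) : chi β p = 1 ∨ chi β p = -1 := by
  unfold chi
  induction β using Finset.induction_on with
  | empty => simp
  | insert a s ha ih =>
    rw [prod_insert ha]
    rcases ih with h | h <;> rw [h] <;> split_ifs <;> simp

lemma chi_sum {S : Type} [DecidableEq S] (α p : Finset S) :
    ∑ β ∈ α.powerset, chi β p = if Disjoint α p then 2 ^ α.card else 0 := by
  unfold chi
  rw [← prod_one_add]
  split_ifs with h
  · rw [← prod_const]
    exact prod_congr rfl fun i hi => by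
      rw [if_neg (disjoint_left.mp h hi)]; norm_num
  · obtain ⟨i, hi, hp⟩ := not_disjoint_iff.mp h
    exact prod_eq_zero hi (by simp [hp])

lemma system (k n : ℕ) (hn : 32 * 2 ^ k ≤ n) : ∃ f : (Fin n → Bool) → Bool,
    Monotone f ∧ ¬ Weighted f ∧ ¬ KSummable (∏ β : Finset (Fin k), 2 ^ β.card) f := by
  classical
  obtain ⟨rk, h1, h2⟩ : ∃ rk : Finset (Fin k) → ℕ, Function.Injective rk ∧
      ∀ β α, β ⊂ α → rk β < rk α := by
    let e := Fintype.equivFin (Finset (Fin k))
    have h3 : ∀ β α : Finset (Fin k), β.card < α.card →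
        β.card * Fintype.card (Finset (Fin k)) + (e β).val <
          α.card * Fintype.card (Finset (Fin k)) + (e α).val := fun β α h => by
      have := (e β).isLt
      have := Nat.mul_le_mul_right (Fintype.card (Finset (Fin k))) (Nat.succ_le_of_lt h)
      rw [Nat.succ_mul] at this
      omega
    refine ⟨fun α => α.card * Fintype.card (Finset (Fin k)) + (e α).val, fun α β h => ?_,
      fun β α h => h3 β α (card_lt_card h)⟩
    simp only at h
    rcases lt_trichotomy α.card β.card with l | l | l
    · exact absurd h (h3 _ _ l).ne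
    · rw [l] at h
      exact e.injective (Fin.ext (by omega))
    · exact absurd h (h3 _ _ l).ne'
  let A : Finset (Fin k) ⊕ {α : Finset (Fin k) // α ≠ ∅} → Finset (Fin k) ⊕ Finset (Fin k) → ℤ :=
    fun r c => match r, c with
      | Sum.inl β, Sum.inl p => chi β p
      | Sum.inl β, Sum.inr γ => if γ = β then -1 else 0
      | Sum.inr α, Sum.inl p => if Disjoint α.1 p then 1 else 0
      | Sum.inr α, Sum.inr γ => if rk γ < rk α.1 then -1 else 0
  have hpos : 0 < 2 ^ k := by positivity
  refine gadget A ?_ ?_ _ ?_ n ?_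
  · rintro (β | α) (p | γ) <;> simp only [A]
    · exact Or.inr (chi_val _ _)
    all_goals split_ifs <;> simp
  · simp
  · intro τ τ0 hτ
    have G : ∀ τ : Finset (Fin k) ⊕ Finset (Fin k) → ℤ, (∀ i, ∑ c, A i c * τ c = 0) →
        (∀ α : Finset (Fin k), ∑ β ∈ α.powerset, τ (Sum.inr β) =
          2 ^ α.card * ∑ p ∈ univ.filter (fun p => Disjoint α p), τ (Sum.inl p)) := by
      intro τ hτ α
      have e1 : ∀ β, τ (Sum.inr β) = ∑ p, chi β p * τ (Sum.inl p) := fun β => by
        have := hτ (Sum.inl β)
        simp [A, Fintype.sum_sum_type] at this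
        linarith
      simp only [e1]
      rw [sum_comm, sum_filter, mul_sum]
      refine sum_congr rfl fun p _ => ?_
      rw [← sum_mul, chi_sum]
      split_ifs <;> simp
    have G2 : ∀ τ : Finset (Fin k) ⊕ Finset (Fin k) → ℤ, (∀ i, ∑ c, A i c * τ c = 0) →
        0 ≤ τ (Sum.inr ∅) → (∀ β, 0 ≤ τ (Sum.inr β)) ∧
          (∏ β : Finset (Fin k), 2 ^ β.card) * τ (Sum.inr ∅) ≤ ∑ β, τ (Sum.inr β) := by
      intro τ hτ h0
      refine growth rk h1 h2 (fun β => τ (Sum.inr β)) (fun α hα => ?_) h0
      rw [G τ hτ α]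
      have := hτ (Sum.inr ⟨α, hα⟩)
      simp only [A, Fintype.sum_sum_type, ite_mul, one_mul, zero_mul, neg_mul] at this
      rw [← sum_filter, ← sum_filter, sum_neg_distrib] at this
      congr 1
      linarith
    have hneg : ∀ i, ∑ c, A i c * (-τ) c = 0 := fun i => by
      simp only [Pi.neg_apply, mul_neg, sum_neg_distrib, hτ, neg_zero]
    have hP : (0 : ℤ) ≤ ∏ β : Finset (Fin k), 2 ^ β.card := by positivity
    have hx : 0 ≤ ∑ p, |τ (Sum.inl p)| := sum_nonneg fun _ _ => abs_nonneg _
    push_cast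
    rw [Fintype.sum_sum_type]
    rcases lt_trichotomy (τ (Sum.inr ∅)) 0 with l | l | l
    · have a1 := (G2 (-τ) hneg (by simpa using l.le)).2
      have a2 : ∑ β, (-τ) (Sum.inr β) ≤ ∑ β, |τ (Sum.inr β)| :=
        sum_le_sum fun β _ => neg_le_abs _
      simp only [Pi.neg_apply] at a1 a2
      nlinarith
    · exfalso
      have y0 : ∀ β, τ (Sum.inr β) = 0 := fun β => by
        have a1 := (G2 (-τ) hneg (by simp [l])).1 β
        have a2 := (G2 τ hτ l.ge).1 β
        simp only [Pi.neg_apply] at a1
        linarith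
      have x0 : ∀ γ, τ (Sum.inl γ) = 0 := by
        intro γ
        induction γ using Finset.strongInduction with
        | H γ ih =>
          have := G τ hτ γᶜ
          simp only [y0, sum_const_zero] at this
          have z := (mul_eq_zero.mp this.symm).resolve_left (by positivity)
          rw [sum_eq_single γ] at z
          · exact z
          · intro p hp hne
            simp only [mem_filter, mem_univ, true_and] at hp
            refine ih p (Finset.ssubset_iff_subset_ne.mpr ⟨fun i hi => ?_, hne⟩)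
            by_contra h
            exact disjoint_left.mp hp (mem_compl.mpr h) hi
          · intro h
            exact absurd (by simpa using disjoint_compl_left) h
      apply τ0
      funext c
      rcases c with c | c
      · exact x0 c
      · exact y0 c
    · have a1 := (G2 τ hτ l.le).2
      have a2 : ∑ β, τ (Sum.inr β) ≤ ∑ β, |τ (Sum.inr β)| :=
        sum_le_sum fun β _ => le_abs_self _
      nlinarith
  · simp
    omega

lemma sum_cards (k : ℕ) : 2 * ∑ β : Finset (Fin k), β.card = k * 2 ^ k := by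
  have h : ∑ β : Finset (Fin k), βᶜ.card = ∑ β : Finset (Fin k), β.card :=
    Equiv.sum_comp (Function.Involutive.toPerm compl compl_compl) fun β : Finset (Fin k) => β.card
  have h2 : ∑ β : Finset (Fin k), (β.card + βᶜ.card) = k * 2 ^ k := by
    simp [mul_comm]
  rw [sum_add_distrib, h] at h2
  omega

theorem result (n : ℕ) (hn : 64 ≤ n) : ∃ f : (Fin n → Bool) → Bool,
    Monotone f ∧ ¬ Weighted f ∧
      ∀ m : ℕ, (m : ℝ) ≤ ((n : ℝ) / 64) ^ ((n : ℝ) / 128) → ¬ KSummable m f := by
  have a1 : 2 ^ Nat.log 2 (n / 32) ≤ n / 32 := Nat.pow_log_le_self 2 (by omega)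
  have a2 : n / 32 < 2 ^ (Nat.log 2 (n / 32) + 1) := Nat.lt_pow_succ_log_self (by norm_num) _
  generalize Nat.log 2 (n / 32) = k at a1 a2
  rw [pow_succ] at a2
  obtain ⟨f, f1, f2, f3⟩ := system k n (by omega)
  refine ⟨f, f1, f2, fun m hm => ?_⟩
  rintro ⟨j, j1, jm, h⟩
  refine f3 ⟨j, j1, jm.trans ?_, h⟩
  have b1 : (n : ℝ) ≤ 64 * 2 ^ k := by
    have : n ≤ 64 * 2 ^ k := by omega
    exact_mod_cast this
  have b0 : (64 : ℝ) ≤ n := by exact_mod_cast hn
  have b2 : ((n : ℝ) / 64) ^ ((n : ℝ) / 128) ≤ ((2 : ℝ) ^ k) ^ ((n : ℝ) / 128) :=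
    Real.rpow_le_rpow (by positivity) (by linarith) (by positivity)
  have b3 : ((2 : ℝ) ^ k) ^ ((n : ℝ) / 128) ≤ ((2 : ℝ) ^ k) ^ ((2 : ℝ) ^ k / 2) :=
    Real.rpow_le_rpow_of_exponent_le (one_le_pow₀ (by norm_num)) (by linarith)
  have b4 : ((2 : ℝ) ^ k) ^ ((2 : ℝ) ^ k / 2) = 2 ^ (∑ β : Finset (Fin k), β.card) := by
    rw [← Real.rpow_natCast 2 k, ← Real.rpow_mul (by norm_num), ← Real.rpow_natCast]
    congr 1
    have : (2 : ℝ) * (∑ β : Finset (Fin k), β.card : ℕ) = k * 2 ^ k := by
      exact_mod_cast sum_cards k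
    rw [Real.rpow_natCast]
    linarith
  rw [prod_pow_eq_pow_sum]
  have := hm.trans (b2.trans (b3.trans b4.le))
  exact_mod_cast this

end Pool.Agent.Results.MP_96963f_co.Super
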